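import Mathlib
import Pool.Agent.X269.Echelon

set_option autoImplicit false

/-!
MP_339e71_al, Q1: the intersection of two echelon subgroups of a free group need not be an echelon
subgroup.  In the free group on `x`, `y` the subgroups `⟨x, y²x²y²⟩` and `⟨y, x²y²x²⟩` are echelon,
but their intersection (which is `⟨(x²y²)², (y²x²)²⟩`) is not abelian and contains no nontrivial
power of a primitive element.
-/

namespace Pool.Agent.Results.MP_339e71_al.IntersectionNotEchelon

/-- the rank of a subgroup of a free group: the least cardinality of a generating set -/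
noncomputable def rk {n : ℕ} (H : Subgroup (FreeGroup (Fin n))) : ℕ∞ :=
  ⨅ (S : Set (FreeGroup (Fin n))) (_ : Subgroup.closure S = H), S.encard

/-- the subgroup `F_i` generated by the first `i` elements of an ordered free basis -/
def Fl {n : ℕ} (b : FreeGroupBasis (Fin n) (FreeGroup (Fin n))) (i : ℕ) :
    Subgroup (FreeGroup (Fin n)) :=
  Subgroup.closure {g | ∃ k : Fin n, (k : ℕ) < i ∧ b k = g}

/-- echelon form with respect to an ordered free basis -/
def InEchelonForm {n : ℕ} (b : FreeGroupBasis (Fin n) (FreeGroup (Fin n)))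
    (H : Subgroup (FreeGroup (Fin n))) : Prop :=
  ∀ i : ℕ, i < n → rk (H ⊓ Fl b (i + 1)) ≤ rk (H ⊓ Fl b i) + 1

/-- echelon subgroups -/
def IsEchelon {n : ℕ} (H : Subgroup (FreeGroup (Fin n))) : Prop :=
  ∃ b : FreeGroupBasis (Fin n) (FreeGroup (Fin n)), InEchelonForm b H

open Pool.Agent.X269

theorem Fl_zero (b : FreeGroupBasis (Fin 2) (FreeGroup (Fin 2))) : Fl b 0 = ⊥ := by
  unfold Fl
  have : {g | ∃ k : Fin 2, (k : ℕ) < 0 ∧ b k = g} = ∅ := by
    ext g
    simp
  rw [this, Subgroup.closure_empty]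

theorem Fl_one (b : FreeGroupBasis (Fin 2) (FreeGroup (Fin 2))) :
    Fl b 1 = Subgroup.zpowers (b 0) := by
  unfold Fl
  have : {g | ∃ k : Fin 2, (k : ℕ) < 1 ∧ b k = g} = {b 0} := by
    ext g
    simp only [Set.mem_ofPred_eq, Set.mem_singleton_iff]
    constructor
    · rintro ⟨k, hk, rfl⟩
      have : k = 0 := by
        apply Fin.ext
        show (k : ℕ) = 0
        omega
      rw [this]
    · rintro rfl
      exact ⟨0, by simp, rfl⟩
  rw [this, Subgroup.zpowers_eq_closure]

theorem Fl_two (b : FreeGroupBasis (Fin 2) (FreeGroup (Fin 2))) :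
    Fl b 2 = Subgroup.closure {b 0, b 1} := by
  unfold Fl
  congr 1
  ext g
  simp only [Set.mem_ofPred_eq, Set.mem_insert_iff, Set.mem_singleton_iff]
  constructor
  · rintro ⟨k, _, rfl⟩
    fin_cases k
    · left; rfl
    · right; rfl
  · rintro (rfl | rfl)
    · exact ⟨0, by simp, rfl⟩
    · exact ⟨1, by simp, rfl⟩

theorem basis_gen (b : FreeGroupBasis (Fin 2) (FreeGroup (Fin 2))) :
    Subgroup.closure {b 0, b 1} = ⊤ := by
  have h1 : Subgroup.closure (Set.range b) = ⊤ := by
    have h2 : Set.range b = b.repr.symm.toMonoidHom '' Set.range FreeGroup.of := by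
      rw [← Set.range_comp]
      rfl
    rw [h2, ← MonoidHom.map_closure, FreeGroup.closure_range_of, ← MonoidHom.range_eq_map]
    exact MonoidHom.range_eq_top.2 b.repr.symm.surjective
  rw [← h1]
  congr 1
  ext g
  simp only [Set.mem_insert_iff, Set.mem_singleton_iff, Set.mem_range]
  constructor
  · rintro (rfl | rfl)
    · exact ⟨0, rfl⟩
    · exact ⟨1, rfl⟩
  · rintro ⟨k, rfl⟩
    fin_cases k
    · left; rfl
    · right; rfl

theorem echelon_of_mem (b : FreeGroupBasis (Fin 2) (FreeGroup (Fin 2)))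
    (u : FreeGroup (Fin 2)) : InEchelonForm b (Subgroup.closure {b 0, u}) := by
  have hb : b 0 ≠ 1 := by
    intro h
    have h1 := b.injective.ne (show (0 : Fin 2) ≠ 1 by decide)
    have h2 := basis_gen b
    -- the first element of a basis is not trivial
    have h3 := congrArg b.repr h
    rw [map_one] at h3
    have h4 : b.repr (b 0) = FreeGroup.of 0 := b.repr_apply_coe 0
    rw [h4] at h3
    exact FreeGroup.of_ne_one _ h3
  have hmem : b 0 ∈ Subgroup.closure {b 0, u} := Subgroup.subset_closure (by simp)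
  have hz : Subgroup.closure {b 0, u} ⊓ Subgroup.zpowers (b 0) = Subgroup.zpowers (b 0) :=
    inf_eq_right.2 ((Subgroup.zpowers_le).2 hmem)
  intro i hi
  interval_cases i
  · rw [Fl_zero, Fl_one, hz]
    have h1 : rk (Subgroup.zpowers (b 0)) ≤ 1 := by
      rw [Subgroup.zpowers_eq_closure]
      have := Automaton.rk_closure_le ({b 0} : Set (FreeGroup (Fin 2)))
      rw [Set.encard_singleton] at this
      exact this
    exact h1.trans le_add_self
  · rw [Fl_one, hz, Fl_two, basis_gen, inf_top_eq]
    have h0 : ({b 0, u} : Set (FreeGroup (Fin 2))).encard ≤ 2 := by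
      refine (Set.encard_insert_le _ _).trans ?_
      rw [Set.encard_singleton]
      norm_num
    have h1 : rk (Subgroup.closure {b 0, u}) ≤ 2 := (Automaton.rk_closure_le _).trans h0
    have h2 : 1 ≤ rk (Subgroup.zpowers (b 0)) := Automaton.one_le_rk _ (by
      rw [Ne, Subgroup.zpowers_eq_bot]
      exact hb)
    calc rk (Subgroup.closure {b 0, u}) ≤ 2 := h1
      _ = 1 + 1 := by norm_num
      _ ≤ _ := by gcongr

theorem H_echelon : IsEchelon Echelon.H := by
  refine ⟨FreeGroupBasis.ofFreeGroup (Fin 2), ?_⟩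
  exact echelon_of_mem (FreeGroupBasis.ofFreeGroup (Fin 2)) (FreeGroup.mk Echelon.uw)

theorem G_echelon : IsEchelon Echelon.G := by
  refine ⟨(FreeGroupBasis.ofFreeGroup (Fin 2)).reindex (Equiv.swap 0 1), ?_⟩
  have := echelon_of_mem ((FreeGroupBasis.ofFreeGroup (Fin 2)).reindex (Equiv.swap 0 1))
    (FreeGroup.mk Echelon.vw)
  have h1 : ((FreeGroupBasis.ofFreeGroup (Fin 2)).reindex (Equiv.swap 0 1)) 0 =
      FreeGroup.of 1 := by
    simp
  rw [h1] at this
  exact this

theorem K_not_echelon : ¬ IsEchelon (Echelon.H ⊓ Echelon.G) := by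
  rintro ⟨b, hb⟩
  have hbot : (Echelon.H ⊓ Echelon.G) ⊓ Subgroup.zpowers (b 0) = ⊥ := by
    rw [eq_bot_iff]
    rintro g ⟨⟨h1, h2⟩, ⟨k, rfl⟩⟩
    rw [Subgroup.mem_bot]
    show b 0 ^ k = 1
    by_contra hne
    have hk : k ≠ 0 := by
      rintro rfl
      exact hne (zpow_zero _)
    rcases Int.natAbs_eq k with h | h
    · refine Echelon.no_power (b 0) (b 1) (basis_gen b) k.natAbs (by omega) ?_ ?_
      · rw [← zpow_natCast, ← h]; exact h1
      · rw [← zpow_natCast, ← h]; exact h2
    · have e : b 0 ^ k.natAbs = (b 0 ^ k)⁻¹ := by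
        rw [← zpow_natCast, ← zpow_neg]
        congr 1
        omega
      refine Echelon.no_power (b 0) (b 1) (basis_gen b) k.natAbs (by omega) ?_ ?_
      · rw [e]; exact Echelon.H.inv_mem h1
      · rw [e]; exact Echelon.G.inv_mem h2
  have h1 := hb 1 (by norm_num)
  rw [Fl_one, hbot, Fl_two, basis_gen, inf_top_eq] at h1
  have h2 : rk (⊥ : Subgroup (FreeGroup (Fin 2))) = 0 := Automaton.rk_bot
  rw [h2, zero_add] at h1
  exact Echelon.not_comm (Automaton.comm_of_rk_le_one _ h1 _ Echelon.c_mem _ Echelon.d_mem)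

/-- It is not true that for all `n` the intersection of any two echelon subgroups of the free group
of rank `n` is an echelon subgroup; it already fails for `n = 2`. -/
theorem result : ¬ ∀ (n : ℕ) (H G : Subgroup (FreeGroup (Fin n))),
    IsEchelon H → IsEchelon G → IsEchelon (H ⊓ G) := fun h =>
  K_not_echelon (h 2 _ _ H_echelon G_echelon)

end Pool.Agent.Results.MP_339e71_al.IntersectionNotEchelon
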